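import Mathlib
import Pool.Agent.Q258.Divot.Asym

/-!
# MP_d8403e_co: divots in the distribution of the size of the difference set

`S` is a uniformly random subset of `{0,…,n-1}`.  For every `k ≥ 65` and all large `n` the
distribution of `|S - S|` has a divot at `k(k+1) - 1`, which is never of the form `K(K-1)+3`.
So part (b) of the statement, hence the statement itself, is false.
-/

namespace Pool.Agent.Results.MP_d8403e_co.ExtraDivots

open Finset Pool.Agent.Q258.Divot

/-- The difference set `S - S`, a finite set of integers. -/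
def diffSet (S : Finset ℕ) : Finset ℤ := (S ×ˢ S).image (fun x => (x.1 : ℤ) - (x.2 : ℤ))

/-- `P n m = P_{n,H}(m)`: the probability that a uniformly random subset `S` of `{0,…,n-1}`
has `|S - S| = m`. -/
noncomputable def P (n m : ℕ) : ℝ :=
  (((range n).powerset.filter (fun S => (diffSet S).card = m)).card : ℝ) / 2 ^ n

/-- `Q` has a divot at `i`: `Q i > 0` and `Q i` is smaller than the values at the nearest indices
below and above `i` at which `Q` does not vanish (both exist). -/
def IsDivot (Q : ℕ → ℝ) (i : ℕ) : Prop :=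
  0 < Q i ∧ ∃ j j' : ℕ, j < i ∧ i < j' ∧
    Q j ≠ 0 ∧ (∀ l, j < l → l < i → Q l = 0) ∧
    Q j' ≠ 0 ∧ (∀ l, i < l → l < j' → Q l = 0) ∧
    Q i < Q j ∧ Q i < Q j'

/-- Part (a). -/
def PartA : Prop := ∀ k : ℕ, 2 ≤ k → ∃ N : ℕ, ∀ n ≥ N, IsDivot (P n) (k * (k - 1) + 3)

/-- Part (b). -/
def PartB : Prop := ∃ N : ℕ, ∀ n ≥ N, ∀ i : ℕ, IsDivot (P n) i →
  ∃ k : ℕ, 2 ≤ k ∧ i = k * (k - 1) + 3

lemma diffSet_eq {S : Finset ℕ} (hS : S.Nonempty) :
    diffSet S = insert 0 ((posDiff S).image (fun d : ℕ => (d : ℤ)) ∪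
      (posDiff S).image (fun d : ℕ => -(d : ℤ))) := by
  ext z
  simp only [diffSet, mem_image, mem_product, Prod.exists, mem_insert, mem_union, mem_posDiff]
  constructor
  · rintro ⟨a, b, ⟨ha, hb⟩, rfl⟩
    rcases lt_trichotomy a b with h | h | h
    · exact Or.inr (Or.inr ⟨b - a, ⟨a, ha, b, hb, h, rfl⟩, by omega⟩)
    · exact Or.inl (by omega)
    · exact Or.inr (Or.inl ⟨a - b, ⟨b, hb, a, ha, h, rfl⟩, by omega⟩)
  · rintro (h | ⟨d, ⟨a, ha, b, hb, hab, rfl⟩, rfl⟩ | ⟨d, ⟨a, ha, b, hb, hab, rfl⟩, rfl⟩)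
    · obtain ⟨a, ha⟩ := hS
      exact ⟨a, a, ⟨ha, ha⟩, by omega⟩
    · exact ⟨b, a, ⟨hb, ha⟩, by omega⟩
    · exact ⟨a, b, ⟨ha, hb⟩, by omega⟩

lemma pos_of_mem {S : Finset ℕ} {d : ℕ} (h : d ∈ posDiff S) : 0 < d := by
  obtain ⟨a, -, b, -, hab, rfl⟩ := mem_posDiff.1 h
  omega

lemma card_diffSet {S : Finset ℕ} (hS : S.Nonempty) :
    (diffSet S).card = 2 * (posDiff S).card + 1 := by
  rw [diffSet_eq hS, card_insert_of_notMem, card_union_of_disjoint, card_image_of_injective,
    card_image_of_injective]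
  · ring
  · intro a b h
    simpa using h
  · intro a b h
    simpa using h
  · rw [Finset.disjoint_left]
    intro z hz hz'
    obtain ⟨a, ha, rfl⟩ := mem_image.1 hz
    obtain ⟨b, hb, h⟩ := mem_image.1 hz'
    have := pos_of_mem ha
    omega
  · intro h
    rcases mem_union.1 h with h | h
    · obtain ⟨a, ha, h⟩ := mem_image.1 h
      have := pos_of_mem ha
      omega
    · obtain ⟨a, ha, h⟩ := mem_image.1 h
      have := pos_of_mem ha
      omega

lemma diffSet_empty : diffSet ∅ = ∅ := by decide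

lemma posDiff_empty : posDiff ∅ = ∅ := by decide

lemma P_odd (n h : ℕ) (hh : 1 ≤ h) : P n (2 * h + 1) = ((fam n h).card : ℝ) / 2 ^ n := by
  unfold P fam
  congr 3
  apply filter_congr
  intro S _
  rcases S.eq_empty_or_nonempty with rfl | hS
  · rw [diffSet_empty, posDiff_empty, card_empty, card_empty]
    omega
  · rw [card_diffSet hS]
    omega

lemma P_even (n h : ℕ) (hh : 1 ≤ h) : P n (2 * h) = 0 := by
  unfold P
  rw [filter_eq_empty_iff.2, card_empty, Nat.cast_zero, zero_div]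
  intro S _
  rcases S.eq_empty_or_nonempty with rfl | hS
  · rw [diffSet_empty, card_empty]
    omega
  · rw [card_diffSet hS]
    omega

lemma divot_at (s : ℕ) (hs : 61 ≤ s) :
    ∃ N : ℕ, ∀ n ≥ N, IsDivot (P n) (2 * ((s + 5).choose 2 - 1) + 1) := by
  obtain ⟨N0, hN0⟩ := counts s hs
  obtain ⟨S, hS, hSd⟩ := exists_one (s + 2)
  have hT : 10 ≤ (s + 5).choose 2 := by
    have := Nat.choose_le_choose 2 (show 5 ≤ s + 5 by omega)
    have h5 : Nat.choose 5 2 = 10 := by decide
    omega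
  refine ⟨N0 + S.sup id + 1, fun n hn => ?_⟩
  obtain ⟨h1, h2⟩ := hN0 n (by omega)
  have hpow : (0 : ℝ) < 2 ^ n := by positivity
  have hmem : S ∈ fam n ((s + 5).choose 2 - 1) := by
    rw [mem_fam]
    constructor
    · intro x hx
      rw [mem_range]
      have : x ≤ S.sup id := Finset.le_sup (f := id) hx
      omega
    · have : (s + 2 + 3) = s + 5 := by ring
      rw [this] at hSd
      omega
  have hpos : 0 < (fam n ((s + 5).choose 2 - 1)).card := card_pos.2 ⟨S, hmem⟩
  have hpos1 : 0 < (fam n ((s + 5).choose 2 - 2)).card := by omega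
  have hpos2 : 0 < (fam n ((s + 5).choose 2)).card := by omega
  refine ⟨?_, 2 * ((s + 5).choose 2 - 2) + 1, 2 * ((s + 5).choose 2) + 1, by omega, by omega,
    ?_, ?_, ?_, ?_, ?_, ?_⟩
  · rw [P_odd _ _ (by omega)]
    exact div_pos (by exact_mod_cast hpos) hpow
  · rw [P_odd _ _ (by omega)]
    exact (div_pos (by exact_mod_cast hpos1) hpow).ne'
  · intro l hl hl'
    have : l = 2 * ((s + 5).choose 2 - 1) := by omega
    rw [this]
    exact P_even _ _ (by omega)
  · rw [P_odd _ _ (by omega)]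
    exact (div_pos (by exact_mod_cast hpos2) hpow).ne'
  · intro l hl hl'
    have : l = 2 * ((s + 5).choose 2) := by omega
    rw [this]
    exact P_even _ _ (by omega)
  · rw [P_odd _ _ (by omega), P_odd _ _ (by omega)]
    exact div_lt_div_of_pos_right (by exact_mod_cast h1) hpow
  · rw [P_odd _ _ (by omega), P_odd _ _ (by omega)]
    exact div_lt_div_of_pos_right (by exact_mod_cast h2) hpow

lemma not_form (k : ℕ) (hk : 65 ≤ k) (K : ℕ) : k * (k + 1) - 1 ≠ K * (K - 1) + 3 := by
  intro h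
  have hkk : k * (k + 1) = k * k + k := by ring
  rcases K with _ | K
  · have : 65 * k ≤ k * k := Nat.mul_le_mul_right k hk
    omega
  · rw [Nat.add_sub_cancel] at h
    have hKK : (K + 1) * K = K * K + K := by ring
    rw [hkk, hKK] at h
    rcases Nat.lt_or_ge K k with h' | h'
    · obtain ⟨e, rfl⟩ : ∃ e, k = K + 1 + e := ⟨k - (K + 1), by omega⟩
      have : (K + 1 + e) * (K + 1 + e) = K * K + 2 * K + 1 + e * (2 * K + 2 + e) := by ring
      rw [this] at h
      have h3 : 0 ≤ e * (2 * K + 2 + e) := Nat.zero_le _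
      rcases Nat.eq_zero_or_pos e with rfl | he
      · omega
      · have : 1 * (2 * K + 2 + e) ≤ e * (2 * K + 2 + e) := Nat.mul_le_mul_right _ he
        omega
    · have : k * k ≤ K * K := Nat.mul_le_mul h' h'
      omega

/-- The statement (a) and (b) is false because (b) is: for every `k ≥ 65` there is a divot at
`k(k+1) - 1` for all large `n`, and this number is not of the form `K(K-1)+3`. -/
theorem result :
    ¬ (PartA ∧ PartB) ∧ ¬ PartB ∧
    ∀ k : ℕ, 65 ≤ k →
      (∃ N : ℕ, ∀ n ≥ N, IsDivot (P n) (k * (k + 1) - 1)) ∧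
      ∀ K : ℕ, k * (k + 1) - 1 ≠ K * (K - 1) + 3 := by
  have main : ∀ k : ℕ, 65 ≤ k → ∃ N : ℕ, ∀ n ≥ N, IsDivot (P n) (k * (k + 1) - 1) := by
    intro k hk
    obtain ⟨s, rfl⟩ : ∃ s, k = s + 4 := ⟨k - 4, by omega⟩
    have h := divot_at s (by omega)
    have he : 2 * ((s + 5).choose 2 - 1) + 1 = (s + 4) * (s + 4 + 1) - 1 := by
      have h1 : 2 * (s + 5).choose 2 = (s + 5) * (s + 4) := by
        have := Nat.add_one_mul_choose_eq (s + 4) 1
        rw [Nat.choose_one_right] at this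
        linarith
      have h2 : (s + 5) * (s + 4) = (s + 4) * (s + 4 + 1) := by ring
      have h3 : 1 ≤ (s + 5).choose 2 := Nat.choose_pos (by omega)
      omega
    rwa [he] at h
  have hB : ¬ PartB := by
    rintro ⟨N, hN⟩
    obtain ⟨M, hM⟩ := main 65 le_rfl
    obtain ⟨K, -, hK⟩ := hN (N + M) (by omega) _ (hM (N + M) (by omega))
    exact not_form 65 le_rfl K hK
  exact ⟨fun h => hB h.2, hB, fun k hk => ⟨main k hk, not_form k hk⟩⟩

end Pool.Agent.Results.MP_d8403e_co.ExtraDivots
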